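import Pool.Agent.H947R2.TP.Stubs

/-!
Task C6 (helper61): the estimate for one direction.
-/

set_option autoImplicit false

open MeasureTheory Filter Topology Set
open scoped ENNReal

namespace H947TP

theorem C6_fin (hB3 : St_B3) {D : ℕ} {L : AddSubgroup (Fin D → ℝ)} (hL : IsTile L) (k : Fin D) :
    (AA L k).Finite := by
  obtain ⟨-, h, -⟩ := hB3 D L hL
  refine (h 1).subset ?_
  rintro u ⟨hu, huk, hul⟩
  refine ⟨hu, fun i => ?_⟩
  by_cases hi : i = k
  · rw [hi, huk]; simp
  · exact (hul i hi).le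

theorem C6_Ex {D : ℕ} {L : AddSubgroup (Fin D → ℝ)} {k : Fin D} (hA : (AA L k).Finite)
    (f : (Fin D → ℝ) → ℝ) : Ex L k f = ∑ u ∈ hA.toFinset, wgt k u * f u := by
  unfold Ex
  rw [finsum_mem_eq_finite_toFinset_sum _ hA]

/-- the one-step inequality for the excess -/
theorem C6_step (δ θ : ℝ) (hδ : 0 < δ) (hδ2 : δ ≤ 1 / 2) (h0 : 0 ≤ θ) (h1 : θ < 1) :
    (1 - θ) * (1 / δ * max 0 ((θ - (1 - δ)) / δ)) + θ * (1 / δ * max 0 ((1 - θ - (1 - δ)) / δ))
      ≤ 1 := by
  have hδ' : 0 < δ ^ 2 := by positivity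
  rcases le_or_gt θ (1 - δ) with h | h
  · have e1 : max 0 ((θ - (1 - δ)) / δ) = 0 :=
      max_eq_left (div_nonpos_of_nonpos_of_nonneg (by linarith) hδ.le)
    rw [e1]
    rcases le_or_gt θ δ with h' | h'
    · have e2 : max 0 ((1 - θ - (1 - δ)) / δ) = (1 - θ - (1 - δ)) / δ :=
        max_eq_right (div_nonneg (by linarith) hδ.le)
      rw [e2]
      have e3 : (1 - θ) * (1 / δ * 0) + θ * (1 / δ * ((1 - θ - (1 - δ)) / δ)) =
          θ * (δ - θ) / δ ^ 2 := by
        field_simp
        ring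
      rw [e3, div_le_one hδ']
      nlinarith
    · have e2 : max 0 ((1 - θ - (1 - δ)) / δ) = 0 :=
        max_eq_left (div_nonpos_of_nonpos_of_nonneg (by linarith) hδ.le)
      rw [e2]
      norm_num
  · have e1 : max 0 ((θ - (1 - δ)) / δ) = (θ - (1 - δ)) / δ :=
      max_eq_right (div_nonneg (by linarith) hδ.le)
    have e2 : max 0 ((1 - θ - (1 - δ)) / δ) = 0 :=
      max_eq_left (div_nonpos_of_nonpos_of_nonneg (by linarith) hδ.le)
    rw [e1, e2]
    have e3 : (1 - θ) * (1 / δ * ((θ - (1 - δ)) / δ)) + θ * (1 / δ * 0) =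
        (1 - θ) * (δ - (1 - θ)) / δ ^ 2 := by
      field_simp
      ring
    rw [e3, div_le_one hδ']
    nlinarith

/-- the block average as a product of one-coordinate factors -/
theorem C6_avg {D n : ℕ} (b : Fin D → Fin n) (σ : Fin D ≃ Fin D) (k : Fin D) (j : Fin n)
    (hj : j ≠ b k) (u : Fin D → ℝ) (hu : ∀ l, σ k < σ l → u l = 0) (c B μ : ℝ)
    (hc : c = 4 * μ / cnt b j) :
    Real.exp (4 * μ * (avg b j u - B)) =
      Real.exp (2 * μ * ((before b σ k j : ℝ) / cnt b j) - 4 * μ * B) *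
      ∏ l ∈ Finset.univ.filter (fun l => σ l < σ k),
        (if b l = j then Real.exp (c * (|u l| - 1 / 2)) else 1) := by
  classical
  rw [← Finset.prod_filter, ← Real.exp_sum, ← Real.exp_add]
  congr 1
  rw [← Finset.mul_sum, Finset.sum_sub_distrib, Finset.sum_const, Finset.filter_filter]
  have h1 : (Finset.univ.filter (fun l => σ l < σ k ∧ b l = j)) =
      Finset.univ.filter (fun l => b l = j ∧ σ l < σ k) := by
    ext l
    simp only [Finset.mem_filter, Finset.mem_univ, true_and]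
    exact and_comm
  have h2 : ∑ l ∈ Finset.univ.filter (fun l => b l = j), |u l| =
      ∑ l ∈ Finset.univ.filter (fun l => b l = j ∧ σ l < σ k), |u l| := by
    symm
    apply Finset.sum_subset
    · intro l hl
      simp only [Finset.mem_filter, Finset.mem_univ, true_and] at hl ⊢
      exact hl.1
    · intro l hl hl2
      simp only [Finset.mem_filter, Finset.mem_univ, true_and] at hl hl2
      have h3 : ¬ σ l < σ k := fun h => hl2 ⟨hl, h⟩
      have h4 : l ≠ k := by
        rintro rfl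
        exact hj hl.symm
      have h5 : σ l ≠ σ k := fun h => h4 (σ.injective h)
      have h6 : σ k < σ l := lt_of_le_of_ne (not_lt.1 h3) h5.symm
      rw [hu l h6, abs_zero]
  rw [h1]
  unfold avg before
  rw [h2, hc, nsmul_eq_mul]
  ring

theorem C6 (hC4 : St_C4) (hP1 : St_P1) (hB3 : St_B3) : St_C6 := by
  intro D n μ b δ L σ k hn hμ hcnt hδ hδ2 hL hzero hprod
  classical
  have hA := C6_fin hB3 hL k
  have hD : 2 ≤ D := by
    have h1 : ∑ j, cnt b j = D := by
      unfold cnt
      rw [← Finset.card_eq_sum_card_fiberwise (fun x _ => Finset.mem_univ _)]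
      simp
    have h2 : ∑ _j : Fin n, 1 ≤ ∑ j, cnt b j := Finset.sum_le_sum fun j _ => hμ.trans (hcnt j)
    simp only [Finset.sum_const, Finset.card_univ, Fintype.card_fin, smul_eq_mul, mul_one] at h2
    omega
  obtain ⟨-, -, -, -, -, -, -, -, hP⟩ := hP1 D n b δ k hδ (by linarith) hD (by omega)
  set a : ℝ := ⨆ j : {j : Fin n // j ≠ b k}, (before b σ k j : ℝ) / cnt b j with ha
  have ha0 : 0 ≤ a := Real.iSup_nonneg fun j => by positivity
  have haj : ∀ j : Fin n, j ≠ b k → (before b σ k j : ℝ) / cnt b j ≤ a := fun j hj =>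
    le_ciSup (f := fun j : {j : Fin n // j ≠ b k} => (before b σ k j : ℝ) / cnt b j)
      (Set.finite_range _).bddAbove ⟨j, hj⟩
  have hμ0 : (0 : ℝ) < μ := by exact_mod_cast hμ
  have hn1 : (3 : ℝ) ≤ (n : ℝ) - 1 := by
    have h : (4 : ℝ) ≤ n := by exact_mod_cast hn
    linarith
  have hlog : 1 ≤ Real.log ((n : ℝ) - 1) := by
    rw [Real.le_log_iff_exp_le (by linarith)]
    have h := Real.exp_one_lt_d9
    linarith
  set B : ℝ := a / 2 + Real.log ((n : ℝ) - 1) / (4 * μ) with hB
  have hB1 : 1 / (4 * (μ : ℝ)) ≤ B := by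
    have h : 1 / (4 * (μ : ℝ)) ≤ Real.log ((n : ℝ) - 1) / (4 * μ) :=
      div_le_div_of_nonneg_right hlog (by positivity)
    linarith
  -- pointwise bound
  have hpt : ∀ w : Fin D → ℝ, Phi b δ k w ≤
      (B - 1 / (4 * μ)) + 1 / (4 * μ) * ∑ j ∈ Finset.univ.erase (b k),
        Real.exp (4 * μ * (avg b j w - B)) +
      ∑ l ∈ Finset.univ.erase k, max 0 ((|w l| - (1 - δ)) / δ) := by
    intro w
    have hS1 : 0 ≤ ∑ j ∈ Finset.univ.erase (b k), Real.exp (4 * μ * (avg b j w - B)) :=
      Finset.sum_nonneg fun j _ => (Real.exp_pos _).le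
    have hS2 : 0 ≤ ∑ l ∈ Finset.univ.erase k, max 0 ((|w l| - (1 - δ)) / δ) :=
      Finset.sum_nonneg fun j _ => le_max_left _ _
    have hS1' : 0 ≤ 1 / (4 * (μ : ℝ)) * ∑ j ∈ Finset.univ.erase (b k),
        Real.exp (4 * μ * (avg b j w - B)) := mul_nonneg (by positivity) hS1
    apply hP w
    · linarith
    · intro j hj
      have h1 : Real.exp (4 * μ * (avg b j w - B)) ≤
          ∑ j ∈ Finset.univ.erase (b k), Real.exp (4 * μ * (avg b j w - B)) :=
        Finset.single_le_sum (f := fun j => Real.exp (4 * μ * (avg b j w - B)))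
          (fun j _ => (Real.exp_pos _).le) (Finset.mem_erase.2 ⟨hj, Finset.mem_univ _⟩)
      have h2 := Real.add_one_le_exp (4 * (μ : ℝ) * (avg b j w - B))
      have h3 : 1 / (4 * (μ : ℝ)) * (4 * μ * (avg b j w - B) + 1) ≤
          1 / (4 * (μ : ℝ)) * ∑ j ∈ Finset.univ.erase (b k),
            Real.exp (4 * μ * (avg b j w - B)) :=
        mul_le_mul_of_nonneg_left (h2.trans h1) (by positivity)
      have h4 : 1 / (4 * (μ : ℝ)) * (4 * μ * (avg b j w - B) + 1) =
          avg b j w - B + 1 / (4 * μ) := by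
        field_simp
      linarith
    · intro l hl
      have h1 : max 0 ((|w l| - (1 - δ)) / δ) ≤
          ∑ l ∈ Finset.univ.erase k, max 0 ((|w l| - (1 - δ)) / δ) :=
        Finset.single_le_sum (f := fun l => max 0 ((|w l| - (1 - δ)) / δ))
          (fun l _ => le_max_left _ _) (Finset.mem_erase.2 ⟨hl, Finset.mem_univ _⟩)
      have h2 : (|w l| - (1 - δ)) / δ ≤ max 0 ((|w l| - (1 - δ)) / δ) := le_max_right _ _
      linarith
  have hW : ∀ u ∈ hA.toFinset, 0 ≤ wgt k u := by
    intro u hu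
    rw [Set.Finite.mem_toFinset] at hu
    obtain ⟨-, -, hul⟩ := hu
    unfold wgt
    apply Finset.prod_nonneg
    intro l hl
    have := hul l (Finset.ne_of_mem_erase hl)
    linarith
  have hz : ∀ u ∈ hA.toFinset, ∀ l, σ k < σ l → u l = 0 := by
    intro u hu
    rw [Set.Finite.mem_toFinset] at hu
    exact hzero u hu
  -- the total weight
  have hE1 : ∑ u ∈ hA.toFinset, wgt k u ≤ 1 := by
    have h := hprod (fun _ _ => 1) (fun _ _ _ _ => zero_le_one) (fun _ θ _ _ => by
      show (1 - θ) * 1 + θ * 1 ≤ 1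
      linarith)
    rw [C6_Ex hA] at h
    simpa using h
  -- the block averages
  have hE2 : ∀ j ∈ Finset.univ.erase (b k), ∑ u ∈ hA.toFinset,
      wgt k u * Real.exp (4 * μ * (avg b j u - B)) ≤ 1 / ((n : ℝ) - 1) := by
    intro j hj
    have hj' : j ≠ b k := Finset.ne_of_mem_erase hj
    have hcj : (0 : ℝ) < cnt b j := by
      have := hμ.trans (hcnt j)
      exact_mod_cast this
    have hlam0 : 0 ≤ 4 * (μ : ℝ) / cnt b j := by positivity
    have hlam4 : 4 * (μ : ℝ) / cnt b j ≤ 4 := by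
      rw [div_le_iff₀ hcj]
      have : (μ : ℝ) ≤ cnt b j := by exact_mod_cast hcnt j
      linarith
    have h := hprod (fun l t => if b l = j then Real.exp (4 * μ / cnt b j * (t - 1 / 2)) else 1)
      (fun l t _ _ => by
        show 0 ≤ if b l = j then Real.exp (4 * μ / cnt b j * (t - 1 / 2)) else 1
        split_ifs
        · exact (Real.exp_pos _).le
        · exact zero_le_one)
      (fun l θ h0 h1 => by
        show (1 - θ) * (if b l = j then Real.exp (4 * μ / cnt b j * (θ - 1 / 2)) else 1) +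
          θ * (if b l = j then Real.exp (4 * μ / cnt b j * (1 - θ - 1 / 2)) else 1) ≤ 1
        split_ifs
        · exact hC4 _ θ hlam0 hlam4 h0 h1.le
        · linarith)
    rw [C6_Ex hA] at h
    set e0 : ℝ := Real.exp (2 * μ * ((before b σ k j : ℝ) / cnt b j) - 4 * μ * B) with he0
    have h2 : ∑ u ∈ hA.toFinset, wgt k u * Real.exp (4 * μ * (avg b j u - B)) =
        e0 * ∑ u ∈ hA.toFinset, wgt k u * ∏ l ∈ Finset.univ.filter (fun l => σ l < σ k),
          (if b l = j then Real.exp (4 * μ / cnt b j * (|u l| - 1 / 2)) else 1) := by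
      rw [Finset.mul_sum]
      refine Finset.sum_congr rfl fun u hu => ?_
      rw [C6_avg b σ k j hj' u (hz u hu) (4 * μ / cnt b j) B μ rfl]
      ring
    rw [h2]
    have h3 : e0 ≤ 1 / ((n : ℝ) - 1) := by
      have h4 : 2 * (μ : ℝ) * ((before b σ k j : ℝ) / cnt b j) - 4 * μ * B ≤
          -Real.log ((n : ℝ) - 1) := by
        have h5 := haj j hj'
        have h6 : 4 * (μ : ℝ) * B = 2 * μ * a + Real.log ((n : ℝ) - 1) := by
          rw [hB]
          field_simp
          ring
        rw [h6]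
        have h7 : 2 * (μ : ℝ) * ((before b σ k j : ℝ) / cnt b j) ≤ 2 * μ * a :=
          mul_le_mul_of_nonneg_left h5 (by positivity)
        linarith
      have h8 := Real.exp_le_exp.2 h4
      rw [Real.exp_neg, Real.exp_log (by linarith)] at h8
      rw [one_div]
      exact h8
    have he0' : 0 ≤ e0 := (Real.exp_pos _).le
    calc e0 * _ ≤ e0 * 1 := mul_le_mul_of_nonneg_left h he0'
      _ ≤ 1 / ((n : ℝ) - 1) := by rw [mul_one]; exact h3
  -- the excess
  have hE3 : ∀ l ∈ Finset.univ.erase k, ∑ u ∈ hA.toFinset,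
      wgt k u * max 0 ((|u l| - (1 - δ)) / δ) ≤ δ := by
    intro l hl
    have hl' : l ≠ k := Finset.ne_of_mem_erase hl
    rcases lt_trichotomy (σ l) (σ k) with h | h | h
    · have h1 := hprod (fun l' t => if l' = l then 1 / δ * max 0 ((t - (1 - δ)) / δ) else 1)
        (fun l' t _ _ => by
          show 0 ≤ if l' = l then 1 / δ * max 0 ((t - (1 - δ)) / δ) else 1
          split_ifs
          · exact mul_nonneg (by positivity) (le_max_left _ _)
          · exact zero_le_one)
        (fun l' θ h0 h1 => by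
          show (1 - θ) * (if l' = l then 1 / δ * max 0 ((θ - (1 - δ)) / δ) else 1) +
            θ * (if l' = l then 1 / δ * max 0 ((1 - θ - (1 - δ)) / δ) else 1) ≤ 1
          split_ifs
          · exact C6_step δ θ hδ hδ2 h0 h1
          · linarith)
      rw [C6_Ex hA] at h1
      have h2 : ∀ u : Fin D → ℝ, ∏ l' ∈ Finset.univ.filter (fun l => σ l < σ k),
          (if l' = l then 1 / δ * max 0 ((|u l'| - (1 - δ)) / δ) else 1) =
          1 / δ * max 0 ((|u l| - (1 - δ)) / δ) := by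
        intro u
        rw [Finset.prod_ite_eq' (Finset.univ.filter (fun l => σ l < σ k)) l
          (fun l' => 1 / δ * max 0 ((|u l'| - (1 - δ)) / δ)), if_pos]
        exact Finset.mem_filter.2 ⟨Finset.mem_univ _, h⟩
      have h3 : ∑ u ∈ hA.toFinset, wgt k u * max 0 ((|u l| - (1 - δ)) / δ) =
          δ * ∑ u ∈ hA.toFinset, wgt k u * ∏ l' ∈ Finset.univ.filter (fun l => σ l < σ k),
          (if l' = l then 1 / δ * max 0 ((|u l'| - (1 - δ)) / δ) else 1) := by
        rw [Finset.mul_sum]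
        refine Finset.sum_congr rfl fun u _ => ?_
        rw [h2 u]
        field_simp
      rw [h3]
      calc δ * _ ≤ δ * 1 := mul_le_mul_of_nonneg_left h1 hδ.le
        _ = δ := mul_one δ
    · exact absurd (σ.injective h) hl'
    · have h1 : ∑ u ∈ hA.toFinset, wgt k u * max 0 ((|u l| - (1 - δ)) / δ) = 0 := by
        apply Finset.sum_eq_zero
        intro u hu
        rw [hz u hu l h, abs_zero, max_eq_left, mul_zero]
        exact div_nonpos_of_nonpos_of_nonneg (by linarith) hδ.le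
      rw [h1]
      exact hδ.le
  -- assembly
  rw [C6_Ex hA]
  have hmain : ∑ u ∈ hA.toFinset, wgt k u * Phi b δ k u ≤
      (B - 1 / (4 * μ)) * ∑ u ∈ hA.toFinset, wgt k u +
      1 / (4 * μ) * ∑ j ∈ Finset.univ.erase (b k), ∑ u ∈ hA.toFinset,
        wgt k u * Real.exp (4 * μ * (avg b j u - B)) +
      ∑ l ∈ Finset.univ.erase k, ∑ u ∈ hA.toFinset,
        wgt k u * max 0 ((|u l| - (1 - δ)) / δ) := by
    have e1 : ∑ j ∈ Finset.univ.erase (b k), ∑ u ∈ hA.toFinset,
        wgt k u * Real.exp (4 * μ * (avg b j u - B)) = ∑ u ∈ hA.toFinset,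
        ∑ j ∈ Finset.univ.erase (b k), wgt k u * Real.exp (4 * μ * (avg b j u - B)) :=
      Finset.sum_comm
    have e2 : ∑ l ∈ Finset.univ.erase k, ∑ u ∈ hA.toFinset,
        wgt k u * max 0 ((|u l| - (1 - δ)) / δ) = ∑ u ∈ hA.toFinset,
        ∑ l ∈ Finset.univ.erase k, wgt k u * max 0 ((|u l| - (1 - δ)) / δ) := Finset.sum_comm
    rw [e1, e2, Finset.mul_sum, Finset.mul_sum, ← Finset.sum_add_distrib,
      ← Finset.sum_add_distrib]
    refine Finset.sum_le_sum fun u hu => ?_
    rw [← Finset.mul_sum, ← Finset.mul_sum]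
    refine (mul_le_mul_of_nonneg_left (hpt u) (hW u hu)).trans (le_of_eq ?_)
    ring
  have hsum2 : ∑ j ∈ Finset.univ.erase (b k), ∑ u ∈ hA.toFinset,
      wgt k u * Real.exp (4 * μ * (avg b j u - B)) ≤ 1 := by
    refine (Finset.sum_le_sum hE2).trans (le_of_eq ?_)
    rw [Finset.sum_const, Finset.card_erase_of_mem (Finset.mem_univ _), Finset.card_univ,
      Fintype.card_fin, nsmul_eq_mul, Nat.cast_sub (by omega)]
    push_cast
    rw [mul_one_div, div_self (by linarith)]
  have hsum3 : ∑ l ∈ Finset.univ.erase k, ∑ u ∈ hA.toFinset,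
      wgt k u * max 0 ((|u l| - (1 - δ)) / δ) ≤ D * δ := by
    refine (Finset.sum_le_sum hE3).trans ?_
    rw [Finset.sum_const, Finset.card_erase_of_mem (Finset.mem_univ _), Finset.card_univ,
      Fintype.card_fin, nsmul_eq_mul]
    apply mul_le_mul_of_nonneg_right _ hδ.le
    have : D - 1 ≤ D := Nat.sub_le _ _
    exact_mod_cast this
  have h1 : (B - 1 / (4 * μ)) * ∑ u ∈ hA.toFinset, wgt k u ≤ (B - 1 / (4 * μ)) * 1 :=
    mul_le_mul_of_nonneg_left hE1 (by linarith)
  have h2 : 1 / (4 * (μ : ℝ)) * ∑ j ∈ Finset.univ.erase (b k), ∑ u ∈ hA.toFinset,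
      wgt k u * Real.exp (4 * μ * (avg b j u - B)) ≤ 1 / (4 * (μ : ℝ)) * 1 :=
    mul_le_mul_of_nonneg_left hsum2 (by positivity)
  linarith

end H947TP
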